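import Mathlib

set_option autoImplicit false

namespace Pool.Agent.Lib.MP_ee4062_co

open Complex Set

/-- A continuous function whose exponential is constant takes equal values at `0` and `1`. -/
theorem eq_of_exp_const {q : ℝ → ℂ} (hq : Continuous q) {w : ℂ} (hw : ∀ s, exp (q s) = w) :
    q 1 = q 0 := by
  have h := Complex.isCoveringMap_exp.eq_of_comp_eq (A := ℝ) (g₁ := q) (g₂ := fun _ => q 0) hq
    continuous_const (by
      funext s
      simp only [Function.comp_apply, Subtype.mk.injEq]
      rw [hw, hw]) 0 rfl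
  exact congrFun h 1

theorem one_sub_div_mem_slitPlane {b u : ℂ} (hb : ‖b‖ = 1) (hu : ‖u‖ ≤ 1) (hne : u ≠ b) :
    1 - u / b ∈ slitPlane := by
  have hb0 : b ≠ 0 := by
    intro h; rw [h] at hb; simp at hb
  have h1 : ‖u / b‖ ≤ 1 := by rw [norm_div, hb, div_one]; exact hu
  have h2 : u / b ≠ 1 := by
    intro h; exact hne ((div_eq_one_iff_eq hb0).mp h)
  have h3 : (u / b).re < 1 := by
    rcases lt_or_eq_of_le ((Complex.re_le_norm (u / b)).trans h1) with h | h
    · exact h
    · exfalso
      apply h2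
      have h4 : (u / b).re ^ 2 + (u / b).im ^ 2 ≤ 1 := by
        have := Complex.sq_norm (u / b)
        rw [Complex.normSq_apply] at this
        nlinarith [norm_nonneg (u / b)]
      have h5 : (u / b).im = 0 := by
        rw [h] at h4
        nlinarith [sq_nonneg (u / b).im]
      exact Complex.ext (by simpa using h) (by simpa using h5)
  left
  simp only [sub_re, one_re]
  linarith

/-- Change of a branch of the logarithm along an edge of the square. -/
theorem edge {h u : ℝ → ℂ} (hh : Continuous h) (hu : Continuous u) {b c : ℂ} (hb : ‖b‖ = 1)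
    (hu1 : ∀ s, ‖u s‖ ≤ 1) (hne : ∀ s, u s ≠ b) (hexp : ∀ s, exp (h s) = c * (b - u s)) :
    h 1 - h 0 = log (1 - u 1 / b) - log (1 - u 0 / b) := by
  have hb0 : b ≠ 0 := by
    intro h; rw [h] at hb; simp at hb
  have hslit : ∀ s, 1 - u s / b ∈ slitPlane :=
    fun s => one_sub_div_mem_slitPlane hb (hu1 s) (hne s)
  have hq : Continuous (fun s => h s - log (1 - u s / b)) := by
    refine hh.sub ?_
    refine Continuous.clog ?_ hslit
    fun_prop
  have hw : ∀ s, exp (h s - log (1 - u s / b)) = c * b := by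
    intro s
    have h0 : 1 - u s / b ≠ 0 := slitPlane_ne_zero (hslit s)
    rw [exp_sub, exp_log h0, hexp]
    have : b - u s = b * (1 - u s / b) := by field_simp
    rw [this, ← mul_assoc, mul_div_assoc, div_self h0, mul_one]
  have := eq_of_exp_const hq hw
  linear_combination this

theorem arg_one_sub_exp_pos {φ : ℝ} (h0 : 0 < φ) (h1 : φ < 2 * Real.pi) :
    (log (1 - exp (φ * I))).im = (φ - Real.pi) / 2 := by
  rw [log_im]
  have hs : 0 < Real.sin (φ / 2) := Real.sin_pos_of_pos_of_lt_pi (by linarith) (by linarith)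
  have : 1 - exp (φ * I) = ((2 * Real.sin (φ / 2) : ℝ) : ℂ) *
      (Real.cos ((φ - Real.pi) / 2) + Real.sin ((φ - Real.pi) / 2) * I) := by
    have e1 : (φ - Real.pi) / 2 = φ / 2 - Real.pi / 2 := by ring
    rw [e1, Real.cos_sub_pi_div_two, Real.sin_sub_pi_div_two]
    have e2 : (φ : ℂ) * I = ((2 * (φ / 2) : ℝ) : ℂ) * I := by push_cast; ring
    rw [e2, exp_mul_I, ← ofReal_cos, ← ofReal_sin, Real.cos_two_mul, Real.sin_two_mul]
    have e3 : Real.cos (φ / 2) ^ 2 = 1 - Real.sin (φ / 2) ^ 2 := by
      have := Real.sin_sq_add_cos_sq (φ / 2)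
      linarith
    rw [e3]
    push_cast
    ring
  rw [this, ofReal_cos, ofReal_sin, arg_mul_cos_add_sin_mul_I (by positivity)]
  constructor <;> linarith [Real.pi_pos]

theorem arg_one_sub_exp_neg {φ : ℝ} (h0 : φ < 0) (h1 : -(2 * Real.pi) < φ) :
    (log (1 - exp (φ * I))).im = (φ + Real.pi) / 2 := by
  have h2 := arg_one_sub_exp_pos (φ := -φ) (by linarith) (by linarith)
  have hslit : 1 - exp ((φ : ℂ) * I) ∈ slitPlane := by
    have := one_sub_div_mem_slitPlane (b := 1) (u := exp (φ * I)) (by simp)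
      (by rw [norm_exp_ofReal_mul_I]) (by
        intro h
        rw [Complex.exp_eq_one_iff] at h
        obtain ⟨n, hn⟩ := h
        have hn' : φ = n * (2 * Real.pi) := by
          have := congrArg Complex.im hn
          simpa using this
        have hpi := Real.pi_pos
        have hn0 : (n : ℝ) < 0 := by
          by_contra hcon
          push Not at hcon
          nlinarith
        have hn1 : (-1 : ℝ) < n := by
          by_contra hcon
          push Not at hcon
          nlinarith
        have a1 : n < 0 := by exact_mod_cast hn0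
        have a2 : (-1 : ℤ) < n := by exact_mod_cast hn1
        omega)
    simpa using this
  have h3 : (starRingEnd ℂ) (1 - exp ((φ : ℂ) * I)) = 1 - exp (((-φ : ℝ) : ℂ) * I) := by
    rw [map_sub, map_one, ← exp_conj]
    simp
  rw [← h3, log_conj _ (by
    intro h
    rw [mem_slitPlane_iff_arg] at hslit
    exact hslit.1 h)] at h2
  rw [conj_im] at h2
  linarith

/-- **Crossing lemma.** Two paths in the closed unit disk whose endpoints interleave on the unit
circle meet. -/
theorem crossing_paths {f g : ℝ → ℂ} (hf : Continuous f) (hg : Continuous g)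
    (hf1 : ∀ s, ‖f s‖ ≤ 1) (hg1 : ∀ s, ‖g s‖ ≤ 1) {a b c d : ℝ}
    (fa : f 0 = exp (a * I)) (gb : g 0 = exp (b * I)) (fc : f 1 = exp (c * I))
    (gd : g 1 = exp (d * I)) (hab : a < b) (hbc : b < c) (hcd : c < d)
    (hda : d < a + 2 * Real.pi) : ∃ s t, f s = g t := by
  by_contra hcon
  push Not at hcon
  have hsc : IsSimplyConnected (Set.univ : Set (ℝ × ℝ)) := by
    have : ContractibleSpace (Set.univ : Set (ℝ × ℝ)) :=
      (convex_univ : Convex ℝ (Set.univ : Set (ℝ × ℝ))).contractibleSpace Set.univ_nonempty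
    unfold IsSimplyConnected
    infer_instance
  obtain ⟨L, hLc, hL⟩ := Complex.exists_continuousOn_eqOn_exp_comp hsc isOpen_univ
    (g := fun p : ℝ × ℝ => f p.1 - g p.2) (by fun_prop) (by
      rintro ⟨p, _, hp⟩
      exact hcon p.1 p.2 (sub_eq_zero.mp hp))
  have hLc' : Continuous L := continuousOn_univ.mp hLc
  have hL' : ∀ s t, exp (L (s, t)) = f s - g t := fun s t => hL (Set.mem_univ (s, t))
  have nf0 : ‖f 0‖ = 1 := by rw [fa, norm_exp_ofReal_mul_I]
  have nf1 : ‖f 1‖ = 1 := by rw [fc, norm_exp_ofReal_mul_I]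
  have ng0 : ‖g 0‖ = 1 := by rw [gb, norm_exp_ofReal_mul_I]
  have ng1 : ‖g 1‖ = 1 := by rw [gd, norm_exp_ofReal_mul_I]
  have e1 := edge (h := fun s => L (s, 0)) (u := f) (b := g 0) (c := -1) (by fun_prop) hf ng0 hf1
    (fun s => hcon s 0) (fun s => by rw [hL']; ring)
  have e2 := edge (h := fun t => L (1, t)) (u := g) (b := f 1) (c := 1) (by fun_prop) hg nf1 hg1
    (fun t => (hcon 1 t).symm) (fun t => by rw [hL']; ring)
  have e3 := edge (h := fun s => L (s, 1)) (u := f) (b := g 1) (c := -1) (by fun_prop) hf ng1 hf1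
    (fun s => hcon s 1) (fun s => by rw [hL']; ring)
  have e4 := edge (h := fun t => L (0, t)) (u := g) (b := f 0) (c := 1) (by fun_prop) hg nf0 hg1
    (fun t => (hcon 0 t).symm) (fun t => by rw [hL']; ring)
  have hdiv : ∀ x y : ℝ, exp (x * I) / exp (y * I) = exp (((x - y : ℝ) : ℂ) * I) := by
    intro x y
    rw [← exp_sub]
    congr 1
    push_cast
    ring
  rw [fa, fc, gb, gd] at *
  simp only [hdiv] at e1 e2 e3 e4
  have i1 := congrArg Complex.im e1
  have i2 := congrArg Complex.im e2
  have i3 := congrArg Complex.im e3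
  have i4 := congrArg Complex.im e4
  simp only [sub_im] at i1 i2 i3 i4
  rw [arg_one_sub_exp_pos (by linarith) (by linarith),
    arg_one_sub_exp_neg (by linarith) (by linarith)] at i1
  rw [arg_one_sub_exp_pos (by linarith) (by linarith),
    arg_one_sub_exp_neg (by linarith) (by linarith)] at i2
  rw [arg_one_sub_exp_neg (by linarith) (by linarith),
    arg_one_sub_exp_neg (by linarith) (by linarith)] at i3
  rw [arg_one_sub_exp_pos (by linarith) (by linarith),
    arg_one_sub_exp_pos (by linarith) (by linarith)] at i4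
  have := Real.pi_pos
  linarith

/-- Crossing lemma for path connected sets. -/
theorem crossing_sets {B C : Set ℂ} (hB : IsPathConnected B) (hC : IsPathConnected C)
    (hB1 : ∀ z ∈ B, ‖z‖ ≤ 1) (hC1 : ∀ z ∈ C, ‖z‖ ≤ 1) {a b c d : ℝ}
    (fa : exp (a * I) ∈ B) (gb : exp (b * I) ∈ C) (fc : exp (c * I) ∈ B) (gd : exp (d * I) ∈ C)
    (hab : a < b) (hbc : b < c) (hcd : c < d) (hda : d < a + 2 * Real.pi) :
    (B ∩ C).Nonempty := by
  obtain ⟨p, hp⟩ := hB.joinedIn _ fa _ fc
  obtain ⟨q, hq⟩ := hC.joinedIn _ gb _ gd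
  have hp' : ∀ s, p.extend s ∈ B := by
    intro s
    have : p.extend s ∈ Set.range p := by
      rw [← p.extend_range]; exact Set.mem_range_self s
    obtain ⟨t, ht⟩ := this
    exact ht ▸ hp t
  have hq' : ∀ s, q.extend s ∈ C := by
    intro s
    have : q.extend s ∈ Set.range q := by
      rw [← q.extend_range]; exact Set.mem_range_self s
    obtain ⟨t, ht⟩ := this
    exact ht ▸ hq t
  obtain ⟨s, t, hst⟩ := crossing_paths p.continuous_extend q.continuous_extend
    (fun s => hB1 _ (hp' s)) (fun s => hC1 _ (hq' s)) (by simp) (by simp) (by simp) (by simp)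
    hab hbc hcd hda
  exact ⟨p.extend s, hp' s, hst ▸ hq' t⟩

end Pool.Agent.Lib.MP_ee4062_co
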